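import Pool.Agent.Helper614.PB5

open Set Filter Topology TopologicalSpace

namespace Pool.Agent.Results.MP_8403e4_gt.FSpaceNotBD

/-- `𝓑` is a pretty base of the space `X`: a base of clopen sets such that whenever countably many
members (the family `𝒞`) are each disjoint from each member of an arbitrary subfamily `𝒟`, some
member `W` contains all members of `𝒞` and misses all members of `𝒟`. -/
structure IsPrettyBase {X : Type*} [TopologicalSpace X] (𝓑 : Set (Set X)) : Prop where
  isBasis : IsTopologicalBasis 𝓑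
  isClopen : ∀ U ∈ 𝓑, IsClopen U
  nested : ∀ 𝒞 ⊆ 𝓑, ∀ 𝒟 ⊆ 𝓑, 𝒞.Countable → (∀ U ∈ 𝒞, ∀ V ∈ 𝒟, Disjoint U V) →
    ∃ W ∈ 𝓑, (∀ U ∈ 𝒞, U ⊆ W) ∧ ∀ V ∈ 𝒟, Disjoint W V

/-- The cotopology of a base `𝓑`: generated by the complements of the closures of its members. -/
abbrev cotopology {X : Type*} [TopologicalSpace X] (𝓑 : Set (Set X)) : TopologicalSpace X :=
  generateFrom {V | ∃ B ∈ 𝓑, V = (closure B)ᶜ}

/-- `X` has a cocompact pretty base: a pretty base whose cotopology is compact. -/
def HasCocompactPrettyBase (X : Type*) [TopologicalSpace X] : Prop :=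
  ∃ 𝓑 : Set (Set X), IsPrettyBase 𝓑 ∧ @CompactSpace X (cotopology 𝓑)

/-- `X` is an F-space: every cozero set `{x | g x ≠ 0}` is `C*`-embedded, that is, every bounded
continuous real function on it extends to a bounded continuous real function on `X`. -/
def IsFSpace (X : Type*) [TopologicalSpace X] : Prop :=
  ∀ (g : C(X, ℝ)) (f : BoundedContinuousFunction {x : X | g x ≠ 0} ℝ),
    ∃ F : BoundedContinuousFunction X ℝ, ∀ x : {x : X | g x ≠ 0}, F x = f x

/-- `X` is homeomorphic to a subspace of some (Tychonoff) F-space. -/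
def EmbedsInFSpace (X : Type) [TopologicalSpace X] : Prop :=
  ∃ (Y : Type) (_ : TopologicalSpace Y) (e : X → Y), T35Space Y ∧ IsFSpace Y ∧ IsEmbedding e

/-- Basically disconnected: zero-dimensional Hausdorff, and the closure of the union of countably
many clopen sets is clopen. -/
def IsBasicallyDisconnected (X : Type*) [TopologicalSpace X] : Prop :=
  T2Space X ∧ IsTopologicalBasis {U : Set X | IsClopen U} ∧
    ∀ 𝒞 : Set (Set X), 𝒞.Countable → (∀ U ∈ 𝒞, IsClopen U) → IsClopen (closure (⋃₀ 𝒞))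

open Pool.Agent.Helper614.PB in
/-- There is a Tychonoff space with a cocompact pretty base which is an F-space (so it embeds in an
F-space) and is not basically disconnected. -/
theorem result : ∃ (X : Type) (_ : TopologicalSpace X), T35Space X ∧ HasCocompactPrettyBase X ∧
    IsFSpace X ∧ EmbedsInFSpace X ∧ ¬ IsBasicallyDisconnected X := by
  refine ⟨X5, inferInstance, t35 good5, ?_, X5_ext,
    ⟨X5, inferInstance, id, t35 good5, X5_ext, IsEmbedding.id⟩, ?_⟩
  · refine ⟨hat u5 '' Lat u5 (fun _ => Set.univ), ⟨isBasis_lat good5, ?_, ?_⟩, cocompact good5⟩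
    · rintro _ ⟨E, hE, rfl⟩; exact isClopen_hat good5 hE
    · intro 𝒞 h𝒞 𝒟 h𝒟 hc hd
      exact nested good5 𝒞 𝒟 h𝒞 h𝒟 hc hd
  · rintro ⟨-, -, h⟩
    obtain ⟨𝒞, hc, hcl, hn⟩ := X5_not_bd
    exact hn (h 𝒞 hc hcl)

end Pool.Agent.Results.MP_8403e4_gt.FSpaceNotBD
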